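import Pool.Agent.H79.DO.Stmts

/-!
# Project DO, module DEC: decoding and encoding of the data in polynomial time
-/

set_option autoImplicit false

namespace Pool.Agent.H4.DO

open Pool.Agent.H79.DO TMLib N487b59b3
open Pool.Agent.H74.PPAD (num strip unblk unblks decP decL ptime_decP ptime_decL decP_enc decL_enc
  num_nat_bits strip_eq ptime_strip)

variable {α β γ : Type} [Enc α] [Enc β] [Enc γ]

lemma ptime_encP {f : α → List Bool} {g : β → List Bool} (hf : PTime f) (hg : PTime g) :
    PTime (encP f g) := by
  unfold encP
  have h1 : PTime (fun p : α × β => f p.1) := hf.comp (by fun_prop)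
  have h2 : PTime (fun p : α × β => g p.2) := hg.comp (by fun_prop)
  fun_prop

lemma ptime_encL {f : α → List Bool} (hf : PTime f) : PTime (encL f) := by
  unfold encL
  have h1 : PTime (fun p : List α × α => f p.2) := hf.comp (by fun_prop)
  refine PTime.flatten (PTime.map (g := fun (_ : List α) a => delimit (f a)) PTime.id ?_)
  fun_prop

lemma encP_eq {δ ε α β : Type} [N487b59b3 δ] [N487b59b3 ε] {f : α → List Bool} {g : β → List Bool}
    {u : α → δ} {v : β → ε} (hf : ∀ a, f a = bitEncode (u a)) (hg : ∀ b, g b = bitEncode (v b))
    (p : α × β) : encP f g p = bitEncode (u p.1, v p.2) := by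
  unfold encP
  rw [hf, hg]
  rfl

lemma encL_eq {δ α : Type} [N487b59b3 δ] {f : α → List Bool} {u : α → δ}
    (hf : ∀ a, f a = bitEncode (u a)) (l : List α) : encL f l = bitEncode (l.map u) := by
  unfold encL
  rw [show bitEncode (l.map u) = (((l.map u).map bitEncode).map delimit).flatten from rfl,
    List.map_map, List.map_map]
  congr 1
  refine List.map_congr_left fun a _ => ?_
  simp only [Function.comp_apply, hf]

lemma bitEncode_nat (n : ℕ) : bitEncode n = n.bits := encodeNat_eq n

theorem dec' : DEC := by
  have hid : PTime (fun z : List Bool => z) := PTime.id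
  have hhd : PTime (fun z : List Bool => z.headD false) := by
    have h : PTime (fun z : List Bool => z.head?.getD false) := by fun_prop
    exact h.congr fun z => by cases z <;> rfl
  have hst : PTime (fun z : List Bool => strip z) := ptime_strip PTime.id
  have hb : PTime (fun b : Bool => [b]) := by fun_prop
  have hP := ptime_decP hid hid
  have hQ := ptime_encP hst hst
  refine ⟨?_, ?_, ?_, ?_, ?_⟩
  · exact ptime_decP (ptime_decL (ptime_decL (ptime_decP hhd (ptime_decL (ptime_decL hP)))))
      (ptime_decP (ptime_decL hP) (ptime_decL hP))
  · exact ptime_encP (ptime_encL (ptime_encL (ptime_encP hb (ptime_encL (ptime_encL hQ)))))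
      (ptime_encP (ptime_encL hQ) (ptime_encL hQ))
  · intro d
    obtain ⟨d1, d2, d3⟩ := d
    have hF : ∀ p : ℕ × ℕ, decP (fun z => z) (fun z => z) (bitEncode p) = toF p := by
      rintro ⟨a, b⟩
      rw [decP_enc, bitEncode_nat, bitEncode_nat]
      rfl
    unfold dec toB
    simp only [decP_enc, decL_enc, hF]
    refine Prod.ext ?_ rfl
    refine List.map_congr_left fun r _ => List.map_congr_left fun a _ => ?_
    obtain ⟨a1, a2⟩ := a
    simp only [decP_enc, decL_enc, hF]
    rfl
  · intro b
    have hS : ∀ z : List Bool, strip z = bitEncode (num z) := by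
      intro z
      rw [bitEncode_nat, strip_eq]
    have hF : ∀ p : List Bool × List Bool, encP strip strip p = bitEncode (ofF p) := fun p =>
      encP_eq (u := num) (v := num) hS hS p
    have hB : ∀ b : Bool, [b] = bitEncode b := fun _ => rfl
    unfold encB
    exact encP_eq
      (u := fun x : List (List (Bool × List (List (List Bool × List Bool)))) =>
        x.map fun r => r.map fun a => (a.1, a.2.map fun t => t.map ofF))
      (v := fun x : List (List Bool × List Bool) × List (List Bool × List Bool) =>
        (x.1.map ofF, x.2.map ofF))
      (encL_eq (encL_eq (u := fun a : Bool × List (List (List Bool × List Bool)) =>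
          (a.1, a.2.map fun t => t.map ofF))
        (encP_eq (u := fun b : Bool => b) hB (encL_eq (encL_eq hF)))))
      (encP_eq (encL_eq hF) (encL_eq hF)) b
  · intro d
    obtain ⟨d1, d2, d3⟩ := d
    have hF : ∀ p : ℕ × ℕ, ofF (toF p) = p := by
      rintro ⟨a, b⟩
      simp only [ofF, toF, num_nat_bits]
    have hFl : ∀ l : List (ℕ × ℕ), (l.map toF).map ofF = l := by
      intro l
      rw [List.map_map]
      conv_rhs => rw [← List.map_id l]
      exact List.map_congr_left fun p _ => hF p
    unfold ofB toB
    simp only [hFl, List.map_map]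
    refine Prod.ext ?_ rfl
    simp only
    conv_rhs => rw [← List.map_id d1]
    refine List.map_congr_left fun r _ => ?_
    simp only [Function.comp_apply, List.map_map, id_eq]
    conv_rhs => rw [← List.map_id r]
    refine List.map_congr_left fun a _ => ?_
    obtain ⟨a1, a2⟩ := a
    simp only [Function.comp_apply, List.map_map, id_eq]
    refine Prod.ext rfl ?_
    simp only
    conv_rhs => rw [← List.map_id a2]
    refine List.map_congr_left fun t _ => ?_
    simp only [Function.comp_apply, id_eq]
    exact hFl t

end Pool.Agent.H4.DO
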