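import Pool.Agent.H79.DO.Stmts

/-!
# Project DO, module SND: soundness for general types
-/

set_option autoImplicit false

namespace Pool.Agent.H4.DO

open Pool.Agent.H83 Pool.Agent.H79.DO Matrix

section

variable {S L : Type} [Fintype S]

lemma act_rel {T : L → Matrix S S ℝ} (hT : ∀ l s t, 0 ≤ T l s t) {R : S → S → Prop}
    (hR : ∀ s t, R s t → ∀ l s' t', 0 < T l s s' → 0 < T l t t' → R s' t') (w : List L) :
    ∀ α β : S → ℝ, (∀ s, 0 ≤ α s) → (∀ s, 0 ≤ β s) → (∀ s t, 0 < α s → 0 < β t → R s t) →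
      ∀ s t, 0 < act T w α s → 0 < act T w β t → R s t := by
  have key : ∀ (T : Matrix S S ℝ) (α : S → ℝ), (∀ s t, 0 ≤ T s t) → (∀ s, 0 ≤ α s) → ∀ t,
      0 < (α ᵥ* T) t → ∃ s, 0 < α s ∧ 0 < T s t := by
    intro T α h1 h2 t ht
    have e : (α ᵥ* T) t = ∑ s, α s * T s t := rfl
    rw [e, Finset.sum_pos_iff_of_nonneg fun s _ => mul_nonneg (h2 s) (h1 s t)] at ht
    obtain ⟨s, -, hs⟩ := ht
    refine ⟨s, ?_, ?_⟩
    · exact lt_of_le_of_ne (h2 s) fun h => by rw [← h, zero_mul] at hs; exact lt_irrefl _ hs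
    · exact lt_of_le_of_ne (h1 s t) fun h => by rw [← h, mul_zero] at hs; exact lt_irrefl _ hs
  induction w with
  | nil => intro α β _ _ h; exact h
  | cons l w ih =>
    intro α β hα hβ h
    refine ih _ _ (vecMul_nonneg (hT l) hα) (vecMul_nonneg (hT l) hβ) ?_
    intro s' t' hs' ht'
    obtain ⟨s, hs, hss⟩ := key _ _ (hT l) hα s' hs'
    obtain ⟨t, ht, htt⟩ := key _ _ (hT l) hβ t' ht'
    exact hR s t (h s t hs ht) l s' t' hss htt

end

theorem snd (hmat : MAT) : SND := by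
  classical
  intro S A L _ _ _ _ _ _ _ M μ ν hμ hν σ w W P D hW hP R hR0 hR1 hsep
  obtain ⟨h1, h2⟩ := hmat S A L M w W σ P D hW hP
  refine tvDist_eq_one_of_ov M σ hμ hν ?_
  have hT := (M.isChain σ).nonneg
  have hpos : ∀ l s t, 0 < M.mat σ l s t → 0 < NG w P l s t := by
    intro l s t h
    rw [h1] at h
    by_contra hcon
    have h0 : NG w P l s t = 0 := by omega
    rw [h0, Nat.cast_zero, zero_div] at h
    exact lt_irrefl _ h
  refine ov_tendsto_zero (M.isChain σ) hμ.nonneg hν.nonneg fun u => ?_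
  have hrel := act_rel hT (R := R)
    (fun s t hst l s' t' hs ht => hR1 s t hst l s' t' (hpos _ _ _ hs) (hpos _ _ _ ht)) u μ ν
    hμ.nonneg hν.nonneg hR0
  choose v hv hv0 hvs hvt using hsep
  set S1 := supp (act (M.mat σ) u μ) with hS1
  set S2 := supp (act (M.mat σ) u ν) with hS2
  let V : S → ℝ := ∑ s ∈ Finset.univ.filter (fun s => s ∈ S1), v s
  have hV1 : ∀ s ∈ S1, 0 < V s := by
    intro s hs
    simp only [V, Finset.sum_apply]
    refine Finset.sum_pos' (fun t _ => hv0 t s) ⟨s, ?_, hvs s⟩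
    simp [hs]
  have hV2 : ∀ t ∈ S2, V t = 0 := by
    intro t ht
    simp only [V, Finset.sum_apply]
    refine Finset.sum_eq_zero fun s hs => ?_
    have hs' : s ∈ S1 := (Finset.mem_filter.mp hs).2
    exact hvt s t (hrel s t hs' ht)
  have hc : ∃ c : ℝ, 0 < c ∧ ∀ s, s ∈ S1 → c < V s := by
    have e1 : ∀ᶠ c : ℝ in nhdsWithin 0 (Set.Ioi 0), ∀ s, s ∈ S1 → c < V s := by
      rw [Filter.eventually_all]
      intro s
      by_cases hs : s ∈ S1
      · have : ∀ᶠ c : ℝ in nhds 0, c < V s := gt_mem_nhds (hV1 s hs)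
        exact (this.filter_mono nhdsWithin_le_nhds).mono fun c hc _ => hc
      · exact Filter.Eventually.of_forall fun c h => absurd h hs
    have e2 : ∀ᶠ c : ℝ in nhdsWithin 0 (Set.Ioi 0), 0 < c := self_mem_nhdsWithin
    obtain ⟨c, hc1, hc2⟩ := (e1.and e2).exists
    exact ⟨c, hc2, hc1⟩
  obtain ⟨c, hc0, hc1⟩ := hc
  refine ⟨V, ?_, c, hc1, fun t ht => by rw [hV2 t ht]; exact hc0⟩
  rw [h2]
  exact Submodule.sum_mem _ fun s _ => hv s

end Pool.Agent.H4.DO
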