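import Pool.Agent.H79.DO.Stmts

/-!
# Project DO, module WEI: integral weights with the same sum in all states
-/

set_option autoImplicit false

namespace Pool.Agent.H4.DO

open Pool.Agent.H83 Pool.Agent.H79.DO

theorem wei : WEI := by
  classical
  intro S A L _ _ _ _ _ _ _ M μ ν hμ hν σ h
  obtain ⟨w0, σ', hb, hpos, hwt, htv⟩ := small_witness M hμ hν σ h
  set H := 4 ^ Fintype.card S * Fintype.card S ^ 3 + 1 with hH
  have hoff0 : ∀ s a, a ∉ M.enabled s → w0 s a = 0 := by
    intro s a ha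
    by_contra hne
    have h1 := (hpos s a).mp (Nat.pos_of_ne_zero hne)
    rw [σ.off s a ha] at h1
    exact lt_irrefl _ h1
  let Ws : S → ℕ := fun s => ∑ a, w0 s a
  have hWs : ∀ s, 0 < Ws s := by
    intro s
    have h1 : 0 < ∑ a ∈ M.enabled s, σ.wt s a := by rw [σ.sum_one]; exact one_pos
    rw [Finset.sum_pos_iff_of_nonneg fun a _ => σ.nonneg s a] at h1
    obtain ⟨a, _, ha⟩ := h1
    exact Finset.sum_pos' (fun _ _ => Nat.zero_le _) ⟨a, Finset.mem_univ a, (hpos s a).mpr ha⟩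
  have hsum_en : ∀ s, ∑ a' ∈ M.enabled s, (w0 s a' : ℝ) = (Ws s : ℝ) := by
    intro s
    simp only [Ws]
    push_cast
    refine Finset.sum_subset (Finset.subset_univ _) fun a _ ha => ?_
    rw [hoff0 s a ha, Nat.cast_zero]
  let W : ℕ := ∏ s, Ws s
  let w : S → A → ℕ := fun s a => w0 s a * ∏ s' ∈ Finset.univ.erase s, Ws s'
  have hWe : ∀ s, Ws s * ∏ s' ∈ Finset.univ.erase s, Ws s' = W := fun s =>
    Finset.mul_prod_erase Finset.univ _ (Finset.mem_univ s)
  refine ⟨w, W, σ', ⟨?_, ?_, ?_, ?_⟩, ?_, htv⟩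
  · exact Finset.prod_pos fun s _ => hWs s
  · intro s a ha
    simp only [w, hoff0 s a ha, zero_mul]
  · intro s
    simp only [w]
    rw [← Finset.sum_mul]
    exact hWe s
  · intro s a
    rw [hwt, hsum_en, ← hWe s]
    simp only [w]
    have h1 : (Ws s : ℝ) ≠ 0 := by exact_mod_cast (hWs s).ne'
    have h2 : ((∏ s' ∈ Finset.univ.erase s, Ws s' : ℕ) : ℝ) ≠ 0 := by
      exact_mod_cast (Finset.prod_pos fun s' _ => hWs s').ne'
    rw [Nat.cast_mul, Nat.cast_mul, mul_div_mul_right _ _ h2]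
  · have h1 : ∀ s, Ws s ≤ Fintype.card A * H := by
      intro s
      calc Ws s ≤ ∑ _a : A, H := Finset.sum_le_sum fun a _ => hb s a
        _ = Fintype.card A * H := by rw [Finset.sum_const, smul_eq_mul, Finset.card_univ]
    calc W ≤ ∏ _s : S, Fintype.card A * H := Finset.prod_le_prod' fun s _ => h1 s
      _ = _ := by rw [Finset.prod_const, Finset.card_univ]

end Pool.Agent.H4.DO
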